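import Pool.Agent.Q185.DR.Ring

set_option autoImplicit false
set_option linter.unusedSimpArgs false
set_option linter.unusedVariables false

/-! # The vacuum pp-wave `(x³ - 3 x y²) dt² + 2 dt dz + dx² + dy²`: algebraic part

Computations in the differential ring of smooth functions on an open subset of `ℝ⁴`. -/

namespace Pool.Agent.Q185.PPW

open Pool.Agent.Q185.DR

variable {U : TopologicalSpace.Opens (Fin 4 → ℝ)}

/-- Elements of the ring that are nowhere zero cancel. -/
theorem cancel {a f : Sm U} (ha : ∀ q, a.1 q ≠ 0) (h : a * f = 0) : f = 0 := by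
  apply Sm_ext
  intro q
  have h1 : a.1 q * f.1 q = 0 := congrFun (congrArg Subtype.val h) q
  exact (mul_eq_zero.mp h1).resolve_left (ha q)

theorem cancel_num {a f : Sm U} (c : ℝ) (hc : c ≠ 0) (hac : a = algebraMap ℝ (Sm U) c)
    (h : a * f = 0) : f = 0 := by
  apply cancel (a := a) _ h
  intro q
  rw [hac]
  exact hc

theorem two_cancel {f : Sm U} (h : 2 * f = 0) : f = 0 :=
  cancel_num 2 (by norm_num) (by rw [map_ofNat]) h

theorem six_cancel {f : Sm U} (h : 6 * f = 0) : f = 0 :=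
  cancel_num 6 (by norm_num) (by rw [map_ofNat]) h

theorem sq_eq_zero' {f : Sm U} (h : f * f = 0) : f = 0 := by
  apply Sm_ext
  intro q
  have h1 : f.1 q * f.1 q = 0 := congrFun (congrArg Subtype.val h) q
  exact mul_self_eq_zero.mp h1

theorem sum_sq_eq_zero {f g : Sm U} (h : f * f + g * g = 0) : f = 0 ∧ g = 0 := by
  have h1 : ∀ q, f.1 q = 0 ∧ g.1 q = 0 := by
    intro q
    have h1 : f.1 q * f.1 q + g.1 q * g.1 q = 0 := congrFun (congrArg Subtype.val h) q
    constructor <;> nlinarith [mul_self_nonneg (f.1 q), mul_self_nonneg (g.1 q)]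
  exact ⟨Sm_ext fun q => (h1 q).1, Sm_ext fun q => (h1 q).2⟩

theorem c10 (f : Sm U) : D 1 (D 0 f) = D 0 (D 1 f) := D_comm 1 0 f
theorem c20 (f : Sm U) : D 2 (D 0 f) = D 0 (D 2 f) := D_comm 2 0 f
theorem c30 (f : Sm U) : D 3 (D 0 f) = D 0 (D 3 f) := D_comm 3 0 f
theorem c21 (f : Sm U) : D 2 (D 1 f) = D 1 (D 2 f) := D_comm 2 1 f
theorem c31 (f : Sm U) : D 3 (D 1 f) = D 1 (D 3 f) := D_comm 3 1 f
theorem c32 (f : Sm U) : D 3 (D 2 f) = D 2 (D 3 f) := D_comm 3 2 f

theorem DX (i j : Fin 4) : D i (X j : Sm U) = if i = j then 1 else 0 := D_X i j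

set_option maxHeartbeats 4000000 in
/-- Null solutions of the conformal Killing equation of the pp-wave. -/
theorem killing_step {A B C Z l x y : Sm U} (hx : x = X 1) (hy : y = X 2)
    (zz : D 3 A = 0) (xz : D 3 B + D 1 A = 0) (yz : D 3 C + D 2 A = 0)
    (xx : 2 * D 1 B = l) (yy : 2 * D 2 C = l) (xy : D 2 B + D 1 C = 0)
    (tz : D 3 Z + D 0 A = l)
    (tx : D 0 B + (x ^ 3 - 3 * x * y ^ 2) * D 1 A + D 1 Z = 0)
    (ty : D 0 C + (x ^ 3 - 3 * x * y ^ 2) * D 2 A + D 2 Z = 0)
    (tt : B * (3 * x ^ 2 - 3 * y ^ 2) - C * (6 * x * y) +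
      2 * (x ^ 3 - 3 * x * y ^ 2) * D 0 A + 2 * D 0 Z = l * (x ^ 3 - 3 * x * y ^ 2))
    (nul : (x ^ 3 - 3 * x * y ^ 2) * (A * A) + 2 * (A * Z) + B * B + C * C = 0) :
    A = 0 ∧ B = 0 ∧ C = 0 ∧ ∀ i, D i Z = 0 := by
  have x0 : D 0 x = 0 := by rw [hx, DX]; rfl
  have x1 : D 1 x = 1 := by rw [hx, DX]; rfl
  have x2 : D 2 x = 0 := by rw [hx, DX]; rfl
  have x3 : D 3 x = 0 := by rw [hx, DX]; rfl
  have y0 : D 0 y = 0 := by rw [hy, DX]; rfl
  have y1 : D 1 y = 0 := by rw [hy, DX]; rfl
  have y2 : D 2 y = 1 := by rw [hy, DX]; rfl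
  have y3 : D 3 y = 0 := by rw [hy, DX]; rfl
  have B3 : D 3 B = -D 1 A := by linear_combination xz
  have C3 : D 3 C = -D 2 A := by linear_combination yz
  have Z3 : D 3 Z = l - D 0 A := by linear_combination tz
  have Z1 : D 1 Z = -D 0 B - (x ^ 3 - 3 * x * y ^ 2) * D 1 A := by linear_combination tx
  have Z2 : D 2 Z = -D 0 C - (x ^ 3 - 3 * x * y ^ 2) * D 2 A := by linear_combination ty
  have B2 : D 2 B = -D 1 C := by linear_combination xy
  have A11 : D 1 (D 1 A) = D 2 (D 2 A) := by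
    have h1 := congrArg (D 3) xx
    have h2 := congrArg (D 3) yy
    simp only [D_mul, D_ofNat, c31, c32, B3, C3, D_neg] at h1 h2
    apply sub_eq_zero.mp
    apply two_cancel
    linear_combination h2 - h1
  have A12 : D 1 (D 2 A) = 0 := by
    have h1 := congrArg (D 3) xy
    simp only [D_add, D_neg, c31, c32, B3, C3, D_zero] at h1
    rw [c21] at h1
    apply two_cancel
    linear_combination -h1
  have l3 : D 3 l = -(2 * D 1 (D 1 A)) := by
    rw [← xx]
    simp only [D_mul, D_ofNat, c31, B3, D_neg]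
    ring
  have l1 : D 1 l = 2 * D 0 (D 1 A) := by
    have h1 := congrArg (D 3) tx
    simp only [D_add, D_sub, D_mul, D_pow, D_ofNat, c30, c31, B3, Z3, zz, x3, y3, D_zero,
      D_neg, c10] at h1
    linear_combination h1
  have l2 : D 2 l = 2 * D 0 (D 2 A) := by
    have h1 := congrArg (D 3) ty
    simp only [D_add, D_sub, D_mul, D_pow, D_ofNat, c30, c32, C3, Z3, zz, x3, y3, D_zero,
      D_neg, c20] at h1
    linear_combination h1
  have A111 : D 1 (D 1 (D 1 A)) = 0 := by
    have h1 := congrArg (D 3) l1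
    simp only [D_mul, D_ofNat, c31, c30, l3, zz, D_neg, D_zero] at h1
    apply two_cancel
    linear_combination -h1
  have A211 : D 2 (D 1 (D 1 A)) = 0 := by
    have h1 := congrArg (D 3) l2
    simp only [D_mul, D_ofNat, c32, c30, l3, zz, D_neg, D_zero] at h1
    apply two_cancel
    linear_combination -h1
  have star : -(D 1 A * (3 * x ^ 2 - 3 * y ^ 2)) + D 2 A * (6 * x * y) +
      2 * (D 0 l - D 0 (D 0 A)) = -(2 * D 1 (D 1 A) * (x ^ 3 - 3 * x * y ^ 2)) := by
    have h1 := congrArg (D 3) tt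
    simp only [D_add, D_sub, D_mul, D_pow, D_ofNat, c30, B3, C3, Z3, l3, zz, x3, y3, D_zero,
      D_neg] at h1
    linear_combination h1
  -- first derivatives of `A` vanish
  have s1 : -(D 1 (D 1 A) * (3 * x ^ 2 - 3 * y ^ 2)) - D 1 A * (6 * x) + D 2 A * (6 * y) +
      2 * D 0 (D 0 (D 1 A) ) * 2 - 2 * D 0 (D 0 (D 1 A)) =
        -(2 * D 1 (D 1 A) * (3 * x ^ 2 - 3 * y ^ 2)) := by
    have h1 := congrArg (D 1) star
    simp only [D_add, D_sub, D_mul, D_pow, D_ofNat, c10, l1, A111, A12, x1, y1, D_zero,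
      D_neg] at h1
    push_cast at h1
    norm_num at h1
    linear_combination h1
  have s2 : D 1 A = 0 := by
    have h1 := congrArg (D 1) s1
    have h2 : D 0 (D 0 (D 1 (D 1 A))) = 0 := by
      have h3 := congrArg (D 3) star
      simp only [D_add, D_sub, D_mul, D_pow, D_ofNat, c30, c31, c32, l3, zz, x3, y3, D_zero,
        D_neg] at h3
      have h4 : D 0 (D 1 (D 1 A)) = 0 := by
        apply two_cancel
        apply two_cancel
        linear_combination -h3
      rw [h4, D_zero]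
    simp only [D_add, D_sub, D_mul, D_pow, D_ofNat, c10, A111, A12, h2, x1, y1, D_zero,
      D_neg] at h1
    push_cast at h1
    norm_num at h1
    apply six_cancel
    linear_combination -h1
  have s3 : D 2 A = 0 := by
    have h1 := congrArg (D 2) s1
    simp only [D_add, D_sub, D_mul, D_pow, D_ofNat, c10, c20, c21, s2, A12, ← A11, x2, y2, D_zero,
      D_neg] at h1
    push_cast at h1
    norm_num at h1
    apply six_cancel
    linear_combination h1
  -- now use the null condition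
  have l1' : D 1 l = 0 := by rw [l1, s2, D_zero, mul_zero]
  have l2' : D 2 l = 0 := by rw [l2, s3, D_zero, mul_zero]
  have B11 : D 1 (D 1 B) = 0 := by
    have h1 := l1'
    rw [← xx] at h1
    simp only [D_mul, D_ofNat] at h1
    apply two_cancel
    linear_combination h1
  have B12 : D 1 (D 2 B) = 0 := by
    have h1 := l2'
    rw [← xx] at h1
    simp only [D_mul, D_ofNat, c21] at h1
    apply two_cancel
    linear_combination h1
  have C12 : D 1 (D 2 C) = 0 := by
    have h1 := l1'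
    rw [← yy] at h1
    simp only [D_mul, D_ofNat] at h1
    apply two_cancel
    linear_combination h1
  have C11 : D 1 (D 1 C) = 0 := by
    have h1 := B12
    rw [B2, D_neg] at h1
    linear_combination -h1
  have B011 : D 1 (D 0 (D 1 B)) = 0 := by rw [c10, B11, D_zero]
  have n1 : (3 * x ^ 2 - 3 * y ^ 2) * (A * A) - 2 * (A * D 0 B) + 2 * (B * D 1 B) +
      2 * (C * D 1 C) = 0 := by
    have h1 := congrArg (D 1) nul
    simp only [D_add, D_sub, D_mul, D_pow, D_ofNat, s2, Z1, x1, y1, D_zero, D_neg] at h1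
    push_cast at h1
    norm_num at h1
    linear_combination h1
  have n2 : 6 * x * (A * A) - 2 * (A * D 0 (D 1 B)) + 2 * (D 1 B * D 1 B) +
      2 * (D 1 C * D 1 C) = 0 := by
    have h1 := congrArg (D 1) n1
    simp only [D_add, D_sub, D_mul, D_pow, D_ofNat, s2, x1, y1, D_zero, D_neg, B11, C11,
      c10] at h1
    push_cast at h1
    norm_num at h1
    linear_combination h1
  have n3 : A = 0 := by
    have h1 := congrArg (D 1) n2
    simp only [D_add, D_sub, D_mul, D_pow, D_ofNat, s2, x1, y1, D_zero, D_neg, B11, C11,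
      c10, B011] at h1
    norm_num at h1
    apply sq_eq_zero'
    apply six_cancel
    linear_combination h1
  have BC : B = 0 ∧ C = 0 := by
    apply sum_sq_eq_zero
    rw [n3] at nul
    linear_combination nul
  obtain ⟨B0, C0⟩ := BC
  have l0 : l = 0 := by rw [← xx, B0, D_zero, mul_zero]
  refine ⟨n3, B0, C0, ?_⟩
  intro i
  fin_cases i
  · change D 0 Z = 0
    rw [B0, C0, n3, l0, D_zero] at tt
    apply two_cancel
    linear_combination tt
  · change D 1 Z = 0
    rw [Z1, B0, s2, D_zero]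
    ring
  · change D 2 Z = 0
    rw [Z2, C0, s3, D_zero]
    ring
  · change D 3 Z = 0
    rw [Z3, l0, n3, D_zero]
    ring

end Pool.Agent.Q185.PPW
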