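import Mathlib

set_option autoImplicit false

/-! # Coordinate tensor calculus on `ℝ⁴`: Weyl tensor, almost Einstein scales

Points of `ℝ⁴` are functions `p : Fin 4 → ℝ`, with coordinates `t = p 0`, `x = p 1`, `y = p 2`,
`z = p 3`. -/

namespace Pool.Agent.Q185.PPW

open scoped ContDiff

/-- The `i`-th partial derivative of `f` at `p`. -/
noncomputable def pd (i : Fin 4) (f : (Fin 4 → ℝ) → ℝ) (p : Fin 4 → ℝ) : ℝ :=
  fderiv ℝ f p (Pi.single i 1)

/-- A field of `4 × 4` matrices on `ℝ⁴`, the components `g_ij` of a symmetric `2`-tensor. -/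
abbrev Field := (Fin 4 → ℝ) → Matrix (Fin 4) (Fin 4) ℝ

/-- `g` is a smooth Lorentzian metric on `ℝ⁴`: its components are smooth, and at every point it is
symmetric and congruent to `diag (-1, 1, 1, 1)`. -/
def IsLorentzian (g : Field) : Prop :=
  (∀ i j, ContDiff ℝ ∞ fun p => g p i j) ∧
    ∀ p, (g p).IsSymm ∧ ∃ A : Matrix (Fin 4) (Fin 4) ℝ, IsUnit A.det ∧
      A.transpose * g p * A = Matrix.diagonal ![-1, 1, 1, 1]

/-- The Christoffel symbol `Γ^k_ij` of `g`. -/
noncomputable def christoffel (g : Field) (k i j : Fin 4) (p : Fin 4 → ℝ) : ℝ :=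
  1 / 2 * ∑ l, (g p)⁻¹ k l * (pd i (fun q => g q j l) p + pd j (fun q => g q i l) p -
    pd l (fun q => g q i j) p)

/-- The curvature tensor `R^l_kij = ∂_i Γ^l_jk - ∂_j Γ^l_ik + Γ^l_im Γ^m_jk - Γ^l_jm Γ^m_ik`. -/
noncomputable def riemannUp (g : Field) (l k i j : Fin 4) (p : Fin 4 → ℝ) : ℝ :=
  pd i (christoffel g l j k) p - pd j (christoffel g l i k) p +
    ∑ m, (christoffel g l i m p * christoffel g m j k p -
      christoffel g l j m p * christoffel g m i k p)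

/-- The curvature tensor `R_lkij` with all indices lowered. -/
noncomputable def riemann (g : Field) (l k i j : Fin 4) (p : Fin 4 → ℝ) : ℝ :=
  ∑ m, g p l m * riemannUp g m k i j p

/-- The Ricci tensor `Ric_kj = R^l_klj`. -/
noncomputable def ricci (g : Field) (k j : Fin 4) (p : Fin 4 → ℝ) : ℝ :=
  ∑ l, riemannUp g l k l j p

/-- The scalar curvature of `g`. -/
noncomputable def scal (g : Field) (p : Fin 4 → ℝ) : ℝ :=
  ∑ i, ∑ j, (g p)⁻¹ i j * ricci g i j p

/-- The Schouten tensor `P_ij = (1/2) (Ric_ij - (1/6) Scal g_ij)` in dimension `4`. -/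
noncomputable def schouten (g : Field) (i j : Fin 4) (p : Fin 4 → ℝ) : ℝ :=
  1 / 2 * (ricci g i j p - 1 / 6 * scal g p * g p i j)

/-- The Weyl tensor `W_lkij = R_lkij - g_li P_kj + g_lj P_ki - g_kj P_li + g_ki P_lj`. -/
noncomputable def weyl (g : Field) (l k i j : Fin 4) (p : Fin 4 → ℝ) : ℝ :=
  riemann g l k i j p - g p l i * schouten g k j p + g p l j * schouten g k i p -
    g p k j * schouten g l i p + g p k i * schouten g l j p

/-- The Weyl tensor does not vanish at `p`. -/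
def WeylNonzeroAt (g : Field) (p : Fin 4 → ℝ) : Prop := ∃ l k i j, weyl g l k i j p ≠ 0

/-- The components `∇_i ∇_j σ + P_ij σ`. -/
noncomputable def aEop (g : Field) (σ : (Fin 4 → ℝ) → ℝ) (i j : Fin 4) (p : Fin 4 → ℝ) : ℝ :=
  pd i (pd j σ) p - ∑ k, christoffel g k i j p * pd k σ p + schouten g i j p * σ p

/-- The `g`-trace of `∇∇σ + P σ`. -/
noncomputable def aEtrace (g : Field) (σ : (Fin 4 → ℝ) → ℝ) (p : Fin 4 → ℝ) : ℝ :=
  ∑ i, ∑ j, (g p)⁻¹ i j * aEop g σ i j p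

/-- The function `σ` is an almost Einstein scale of `g`: it is smooth and the trace-free part of
`∇∇σ + P σ` vanishes. -/
def IsAlmostEinsteinScale (g : Field) (σ : (Fin 4 → ℝ) → ℝ) : Prop :=
  ContDiff ℝ ∞ σ ∧ ∀ p i j, aEop g σ i j p - 1 / 4 * aEtrace g σ p * g p i j = 0

theorem pd_add {f h : (Fin 4 → ℝ) → ℝ} {p : Fin 4 → ℝ} (hf : DifferentiableAt ℝ f p)
    (hh : DifferentiableAt ℝ h p) (i : Fin 4) :
    pd i (fun q => f q + h q) p = pd i f p + pd i h p := by
  unfold pd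
  have : fderiv ℝ (fun q => f q + h q) p = fderiv ℝ f p + fderiv ℝ h p := fderiv_add hf hh
  rw [this]
  rfl

theorem pd_const_mul {f : (Fin 4 → ℝ) → ℝ} {p : Fin 4 → ℝ} (hf : DifferentiableAt ℝ f p)
    (c : ℝ) (i : Fin 4) : pd i (fun q => c * f q) p = c * pd i f p := by
  unfold pd
  have : fderiv ℝ (fun q => c * f q) p = c • fderiv ℝ f p := fderiv_const_mul hf c
  rw [this]
  rfl

theorem contDiff_pd {f : (Fin 4 → ℝ) → ℝ} (hf : ContDiff ℝ ∞ f) (i : Fin 4) :
    ContDiff ℝ ∞ (pd i f) := by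
  have h1 : ContDiff ℝ ∞ (fderiv ℝ f) := (contDiff_infty_iff_fderiv.mp hf).2
  exact h1.clm_apply contDiff_const

theorem diff_of {f : (Fin 4 → ℝ) → ℝ} (hf : ContDiff ℝ ∞ f) (p : Fin 4 → ℝ) :
    DifferentiableAt ℝ f p := hf.contDiffAt.differentiableAt (by simp)

theorem aEop_add (g : Field) {σ τ : (Fin 4 → ℝ) → ℝ} (hσ : ContDiff ℝ ∞ σ)
    (hτ : ContDiff ℝ ∞ τ) (i j : Fin 4) (p : Fin 4 → ℝ) :
    aEop g (σ + τ) i j p = aEop g σ i j p + aEop g τ i j p := by
  unfold aEop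
  have h1 : ∀ k, pd k (σ + τ) = fun q => pd k σ q + pd k τ q := by
    intro k
    funext q
    exact pd_add (diff_of hσ q) (diff_of hτ q) k
  simp only [h1]
  rw [pd_add (diff_of (contDiff_pd hσ j) p) (diff_of (contDiff_pd hτ j) p)]
  simp only [mul_add, Finset.sum_add_distrib, Pi.add_apply]
  ring

theorem aEop_smul (g : Field) {σ : (Fin 4 → ℝ) → ℝ} (hσ : ContDiff ℝ ∞ σ) (c : ℝ)
    (i j : Fin 4) (p : Fin 4 → ℝ) : aEop g (c • σ) i j p = c * aEop g σ i j p := by
  unfold aEop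
  have h1 : ∀ k, pd k (c • σ) = fun q => c * pd k σ q := by
    intro k
    funext q
    exact pd_const_mul (diff_of hσ q) c k
  simp only [h1]
  rw [pd_const_mul (diff_of (contDiff_pd hσ j) p)]
  simp only [Pi.smul_apply, smul_eq_mul, mul_add, mul_sub, Finset.mul_sum]
  congr 1
  · congr 1
    exact Finset.sum_congr rfl fun k _ => by ring
  · ring

theorem aEop_zero (g : Field) (i j : Fin 4) (p : Fin 4 → ℝ) :
    aEop g 0 i j p = 0 := by
  have := aEop_smul g (σ := 0) contDiff_const 0 i j p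
  simpa using this

/-- The real vector space of almost Einstein scales of `g`. -/
noncomputable def aE (g : Field) : Submodule ℝ ((Fin 4 → ℝ) → ℝ) where
  carrier := {σ | IsAlmostEinsteinScale g σ}
  add_mem' := by
    rintro σ τ ⟨hσ, h1⟩ ⟨hτ, h2⟩
    refine ⟨hσ.add hτ, fun p i j => ?_⟩
    have h3 : aEtrace g (σ + τ) p = aEtrace g σ p + aEtrace g τ p := by
      unfold aEtrace
      simp only [aEop_add g hσ hτ, mul_add, Finset.sum_add_distrib]
    rw [h3, aEop_add g hσ hτ]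
    linear_combination h1 p i j + h2 p i j
  zero_mem' := by
    refine ⟨contDiff_const, fun p i j => ?_⟩
    have h3 : aEtrace g 0 p = 0 := by
      unfold aEtrace
      simp only [aEop_zero, mul_zero, Finset.sum_const_zero]
    rw [h3, aEop_zero]
    ring
  smul_mem' := by
    rintro c σ ⟨hσ, h1⟩
    refine ⟨hσ.const_smul c, fun p i j => ?_⟩
    have h3 : aEtrace g (c • σ) p = c * aEtrace g σ p := by
      unfold aEtrace
      simp only [aEop_smul g hσ, Finset.mul_sum]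
      exact Finset.sum_congr rfl fun k _ => Finset.sum_congr rfl fun l _ => by ring
    rw [h3, aEop_smul g hσ]
    linear_combination c * h1 p i j

/-- Some open neighbourhood of `p` is mapped by a diffeomorphism `F` onto an open subset of `ℝ⁴`
with `F^* g' = φ² g` for a smooth function `φ > 0`. -/
def LocallyConformalAt (g g' : Field) (p : Fin 4 → ℝ) : Prop :=
  ∃ F : OpenPartialHomeomorph (Fin 4 → ℝ) (Fin 4 → ℝ), p ∈ F.source ∧
    ContDiffOn ℝ ∞ F F.source ∧ ContDiffOn ℝ ∞ F.symm F.target ∧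
    ∃ φ : (Fin 4 → ℝ) → ℝ, ContDiffOn ℝ ∞ φ F.source ∧ (∀ q ∈ F.source, 0 < φ q) ∧
      ∀ q ∈ F.source, ∀ v w : Fin 4 → ℝ,
        fderiv ℝ F q v ⬝ᵥ (g' (F q)).mulVec (fderiv ℝ F q w) =
          φ q ^ 2 * (v ⬝ᵥ (g q).mulVec w)

/-- The metric `g_pp = e^{-√2 t} (x² dt² + 2 dt dz + dx² + dy²)` in the coordinates
`(t, x, y, z)`. -/
noncomputable def gpp : Field := fun p =>
  Real.exp (-(√2 * p 0)) •
    !![p 1 ^ 2, 0, 0, 1; 0, 1, 0, 0; 0, 0, 1, 0; 1, 0, 0, 0]

/-- The vacuum pp-wave `(x³ - 3 x y²) dt² + 2 dt dz + dx² + dy²` in the coordinates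
`(t, x, y, z)`. -/
noncomputable def gw : Field := fun p =>
  !![p 1 ^ 3 - 3 * p 1 * p 2 ^ 2, 0, 0, 1; 0, 1, 0, 0; 0, 0, 1, 0; 1, 0, 0, 0]

end Pool.Agent.Q185.PPW
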