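import Pool.Agent.Q185.PPW.Alg

set_option autoImplicit false
set_option linter.unusedSimpArgs false
set_option linter.unusedVariables false

/-! # Pulling back the null Killing field of `x² dt² + 2 dt dz + dx² + dy²` -/

namespace Pool.Agent.Q185.PPW

open Pool.Agent.Q185.DR

variable {U : TopologicalSpace.Opens (Fin 4 → ℝ)}

/-- The pulled back metric `P² dT² + 2 dT dR + dP² + dQ²`. -/
noncomputable def GG (T P Q R : Sm U) (i j : Fin 4) : Sm U :=
  P ^ 2 * (D i T * D j T) + D i T * D j R + D j T * D i R + D i P * D j P + D i Q * D j Q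

/-- The pp-wave metric, as a matrix over the ring of smooth functions. -/
noncomputable def gm : Matrix (Fin 4) (Fin 4) (Sm U) :=
  !![X 1 ^ 3 - 3 * X 1 * X 2 ^ 2, 0, 0, 1; 0, 1, 0, 0; 0, 0, 1, 0; 1, 0, 0, 0]

/-- The inverse of the pp-wave metric. -/
noncomputable def gi : Matrix (Fin 4) (Fin 4) (Sm U) :=
  !![0, 0, 0, 1; 0, 1, 0, 0; 0, 0, 1, 0; 1, 0, 0, -(X 1 ^ 3 - 3 * X 1 * X 2 ^ 2)]

theorem gi_gm : (gi : Matrix (Fin 4) (Fin 4) (Sm U)) * gm = 1 := by
  refine Matrix.ext fun i j => ?_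
  fin_cases i <;> fin_cases j <;>
    simp [gi, gm, Matrix.mul_apply, Fin.sum_univ_four]

theorem lie (T P Q R K0 K1 K2 K3 : Sm U)
    (k0 : K0 * D 0 T + K1 * D 1 T + K2 * D 2 T + K3 * D 3 T = 0)
    (k1 : K0 * D 0 P + K1 * D 1 P + K2 * D 2 P + K3 * D 3 P = 0)
    (k2 : K0 * D 0 Q + K1 * D 1 Q + K2 * D 2 Q + K3 * D 3 Q = 0)
    (k3 : K0 * D 0 R + K1 * D 1 R + K2 * D 2 R + K3 * D 3 R = 1) (i j : Fin 4) :
    K0 * D 0 (GG T P Q R i j) + K1 * D 1 (GG T P Q R i j) +
      K2 * D 2 (GG T P Q R i j) + K3 * D 3 (GG T P Q R i j) +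
      (GG T P Q R 0 j * D i K0 + GG T P Q R 1 j * D i K1 +
        GG T P Q R 2 j * D i K2 + GG T P Q R 3 j * D i K3) +
      (GG T P Q R i 0 * D j K0 + GG T P Q R i 1 * D j K1 +
        GG T P Q R i 2 * D j K2 + GG T P Q R i 3 * D j K3) = 0 := by
  have dd : ∀ (F : Sm U) (c : Sm U), (∀ i, D i c = 0) →
      K0 * D 0 F + K1 * D 1 F + K2 * D 2 F + K3 * D 3 F = c → ∀ i,
      (D i K0 * D 0 F + D i K1 * D 1 F + D i K2 * D 2 F + D i K3 * D 3 F) +
      (K0 * D 0 (D i F) + K1 * D 1 (D i F) + K2 * D 2 (D i F) + K3 * D 3 (D i F)) = 0 := by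
    intro F c hc hF i
    have h := congrArg (D i) hF
    simp only [D_add, D_mul, hc] at h
    rw [D_comm i 0 F, D_comm i 1 F, D_comm i 2 F, D_comm i 3 F] at h
    linear_combination h
  have d0 := dd T 0 (fun i => D_zero i) k0
  have d1 := dd P 0 (fun i => D_zero i) k1
  have d2 := dd Q 0 (fun i => D_zero i) k2
  have d3 := dd R 1 (fun i => D_one i) k3
  unfold GG
  simp only [D_add, D_mul, D_pow]
  push_cast
  norm_num
  linear_combination (P ^ 2 * D j T + D j R) * d0 i + (P ^ 2 * D i T + D i R) * d0 j +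
    D j P * d1 i + D i P * d1 j + D j Q * d2 i + D i Q * d2 j + D j T * d3 i + D i T * d3 j +
    2 * P * (D i T * D j T) * k1

theorem inverse {T P Q R E Ei : Sm U} (h : ∀ i j, GG T P Q R i j = E * gm i j)
    (hE : E * Ei = 1) (x y : Sm U) (hx : x = X 1) (hy : y = X 2) (F : Fin 4 → Sm U)
    (hF : F = ![T, P, Q, R]) (a : Fin 4) :
    Ei * D 3 T * D 0 (F a) + Ei * D 1 T * D 1 (F a) + Ei * D 2 T * D 2 (F a) +
      Ei * (D 0 T - (x ^ 3 - 3 * x * y ^ 2) * D 3 T) * D 3 (F a) = if a = 3 then 1 else 0 := by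
  let J : Matrix (Fin 4) (Fin 4) (Sm U) := Matrix.of fun a j => D j (F a)
  let G : Matrix (Fin 4) (Fin 4) (Sm U) :=
    !![P ^ 2, 0, 0, 1; 0, 1, 0, 0; 0, 0, 1, 0; 1, 0, 0, 0]
  have h1 : J.transpose * G * J = E • gm := by
    refine Matrix.ext fun i j => ?_
    rw [Matrix.smul_apply, smul_eq_mul, ← h i j]
    simp only [J, G, hF, Matrix.mul_apply, Matrix.transpose_apply, Matrix.of_apply,
      Fin.sum_univ_four, GG]
    simp
    ring
  have h2 : (Ei • (gi * (J.transpose * G))) * J = 1 := by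
    rw [Matrix.smul_mul, Matrix.mul_assoc, h1, Matrix.mul_smul, gi_gm, smul_smul, mul_comm Ei E,
      hE, one_smul]
  have h2' := mul_eq_one_comm.mp h2
  have h3 := congrFun (congrFun h2' a) 3
  rw [Matrix.one_apply] at h3
  rw [← h3]
  simp only [J, G, hF, Matrix.mul_apply, Matrix.smul_apply, Matrix.transpose_apply,
    Matrix.of_apply, Fin.sum_univ_four, gi]
  simp
  rw [hx, hy]
  ring

/-- The last step: the time function depends on `t` only. -/
theorem final_step {T P Q R E Ei k x y : Sm U} (h : ∀ i j, GG T P Q R i j = E * gm i j)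
    (hE : E * Ei = 1) (hx : x = X 1) (hy : y = X 2) (T1 : D 1 T = 0) (T2 : D 2 T = 0)
    (T3 : D 3 T = 0) (hk : Ei * D 0 T = k) (dk : ∀ i, D i k = 0) (q : U) : False := by
  have x1 : D 1 x = 1 := by rw [hx, DX]; rfl
  have y1 : D 1 y = 0 := by rw [hy, DX]; rfl
  have hEq : ∀ q : U, E.1 q * Ei.1 q = 1 := fun q => congrFun (congrArg Subtype.val hE) q
  have hE0 : ∀ q : U, E.1 q ≠ 0 := by
    intro q hq
    have h1 := hEq q
    rw [hq, zero_mul] at h1
    exact zero_ne_one h1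
  have e00 := h 0 0
  have e01 := h 0 1
  have e03 := h 0 3
  have e11 := h 1 1
  have e12 := h 1 2
  have e22 := h 2 2
  have e33 := h 3 3
  unfold GG at e00 e01 e03 e11 e12 e22 e33
  have g00 : (gm 0 0 : Sm U) = x ^ 3 - 3 * x * y ^ 2 := by rw [hx, hy]; simp [gm]
  have g01 : (gm 0 1 : Sm U) = 0 := by simp [gm]
  have g03 : (gm 0 3 : Sm U) = 1 := by simp [gm]
  have g11 : (gm 1 1 : Sm U) = 1 := by simp [gm]
  have g12 : (gm 1 2 : Sm U) = 0 := by simp [gm]
  have g22 : (gm 2 2 : Sm U) = 1 := by simp [gm]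
  have g33 : (gm 3 3 : Sm U) = 0 := by simp [gm]
  rw [g00] at e00
  rw [g01, T1] at e01
  rw [g03, T3] at e03
  rw [g11, T1] at e11
  rw [g12, T1, T2] at e12
  rw [g22, T2] at e22
  rw [g33, T3] at e33
  obtain ⟨P3, Q3⟩ : D 3 P = 0 ∧ D 3 Q = 0 := sum_sq_eq_zero (by linear_combination e33)
  rw [P3, Q3] at e03
  have e03' : D 0 T * D 3 R = E := by linear_combination e03
  have hT0 : ∀ q : U, (D 0 T).1 q ≠ 0 := by
    intro q hq
    apply hE0 q
    have h2 : (D 0 T).1 q * (D 3 R).1 q = E.1 q := congrFun (congrArg Subtype.val e03') q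
    rw [← h2, hq, zero_mul]
  have hEi : ∀ i, D i (D 0 T) = 0 → D i E = 0 := by
    intro i hi
    have h1 : D i Ei = 0 := by
      have h2 := congrArg (D i) hk
      rw [dk i, D_mul, hi, mul_zero, add_zero] at h2
      exact cancel hT0 (by linear_combination h2)
    have h3 := congrArg (D i) hE
    rw [D_mul, h1, mul_zero, add_zero, D_one] at h3
    have h4 : E * Ei * D i E = 0 := by linear_combination E * h3
    rw [hE, one_mul] at h4
    exact h4
  have E1 : D 1 E = 0 := hEi 1 (by rw [c10, T1, D_zero])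
  have E2 : D 2 E = 0 := hEi 2 (by rw [c20, T2, D_zero])
  have f11 : D 1 P * D 1 P + D 1 Q * D 1 Q = E := by linear_combination e11
  have f22 : D 2 P * D 2 P + D 2 Q * D 2 Q = E := by linear_combination e22
  have f12 : D 1 P * D 2 P + D 1 Q * D 2 Q = 0 := by linear_combination e12
  have det : (D 1 P * D 2 Q - D 1 Q * D 2 P) * (D 1 P * D 2 Q - D 1 Q * D 2 P) = E * E := by
    linear_combination (D 2 P * D 2 P + D 2 Q * D 2 Q) * f11 + E * f22 -
      (D 1 P * D 2 P + D 1 Q * D 2 Q) * f12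
  have hdet : ∀ q : U, (D 1 P * D 2 Q - D 1 Q * D 2 P).1 q ≠ 0 := by
    intro q hq
    have h2 : (D 1 P * D 2 Q - D 1 Q * D 2 P).1 q * (D 1 P * D 2 Q - D 1 Q * D 2 P).1 q =
      E.1 q * E.1 q := congrFun (congrArg Subtype.val det) q
    rw [hq, zero_mul] at h2
    exact hE0 q (mul_self_eq_zero.mp h2.symm)
  have solve : ∀ u v : Sm U, D 1 P * u + D 1 Q * v = 0 → D 2 P * u + D 2 Q * v = 0 →
      u = 0 ∧ v = 0 := by
    intro u v h1 h2
    constructor
    · exact cancel hdet (by linear_combination D 2 Q * h1 - D 1 Q * h2)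
    · exact cancel hdet (by linear_combination D 1 P * h2 - D 2 P * h1)
  have a1 : D 1 P * D 1 (D 1 P) + D 1 Q * D 1 (D 1 Q) = 0 := by
    have h1 := congrArg (D 1) f11
    simp only [D_add, D_mul, E1] at h1
    exact two_cancel (by linear_combination h1)
  have a2 : D 1 P * D 1 (D 2 P) + D 1 Q * D 1 (D 2 Q) = 0 := by
    have h1 := congrArg (D 2) f11
    simp only [D_add, D_mul, E2, c21] at h1
    exact two_cancel (by linear_combination h1)
  have a3 : D 2 P * D 1 (D 1 P) + D 2 Q * D 1 (D 1 Q) = 0 := by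
    have h1 := congrArg (D 1) f12
    simp only [D_add, D_mul, D_zero] at h1
    linear_combination h1 - a2
  obtain ⟨P11, Q11⟩ := solve _ _ a1 a3
  -- the component `(0, 1)`
  have b1 : D 0 T * D 1 R + D 0 P * D 1 P + D 0 Q * D 1 Q = 0 := by linear_combination e01
  have T01 : D 0 (D 1 T) = 0 := by rw [T1, D_zero]
  have b2 : D 0 T * D 1 (D 1 R) + D 0 (D 1 P) * D 1 P + D 0 (D 1 Q) * D 1 Q = 0 := by
    have h1 := congrArg (D 1) b1
    simp only [D_add, D_mul, c10, T01, P11, Q11, D_zero] at h1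
    linear_combination h1
  have R111 : D 1 (D 1 (D 1 R)) = 0 := by
    have h1 := congrArg (D 1) b2
    simp only [D_add, D_mul, c10, T01, P11, Q11, D_zero] at h1
    exact cancel hT0 (by linear_combination h1)
  -- the component `(0, 0)`
  have s0 : P ^ 2 * (D 0 T * D 0 T) + 2 * (D 0 T * D 0 R) + D 0 P * D 0 P + D 0 Q * D 0 Q =
      E * (x ^ 3 - 3 * x * y ^ 2) := by linear_combination e00
  have s1 : 2 * P * D 1 P * (D 0 T * D 0 T) + 2 * (D 0 T * D 0 (D 1 R)) +
      2 * (D 0 P * D 0 (D 1 P)) + 2 * (D 0 Q * D 0 (D 1 Q)) = E * (3 * x ^ 2 - 3 * y ^ 2) := by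
    have h1 := congrArg (D 1) s0
    simp only [D_add, D_sub, D_mul, D_pow, D_ofNat, c10, T01, E1, x1, y1, D_zero] at h1
    push_cast at h1
    norm_num at h1
    linear_combination h1
  have s2 : 2 * D 1 P * D 1 P * (D 0 T * D 0 T) + 2 * (D 0 T * D 0 (D 1 (D 1 R))) +
      2 * (D 0 (D 1 P) * D 0 (D 1 P)) + 2 * (D 0 (D 1 Q) * D 0 (D 1 Q)) = E * (6 * x) := by
    have h1 := congrArg (D 1) s1
    simp only [D_add, D_sub, D_mul, D_pow, D_ofNat, c10, T01, E1, x1, y1, P11, Q11,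
      D_zero] at h1
    push_cast at h1
    norm_num at h1
    linear_combination h1
  have s3 : 6 * E = 0 := by
    have h1 := congrArg (D 1) s2
    simp only [D_add, D_sub, D_mul, D_pow, D_ofNat, c10, T01, E1, x1, y1, P11, Q11, R111,
      D_zero] at h1
    linear_combination -h1
  exact hE0 q (congrFun (congrArg Subtype.val (six_cancel s3)) q)

/-- No open piece of the pp-wave is conformal to an open piece of
`x² dt² + 2 dt dz + dx² + dy²`. -/
theorem main {T P Q R E Ei : Sm U} (h : ∀ i j, GG T P Q R i j = E * gm i j)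
    (hE : E * Ei = 1) (q : U) : False := by
  obtain ⟨x, hx⟩ : ∃ x : Sm U, x = X 1 := ⟨_, rfl⟩
  obtain ⟨y, hy⟩ : ∃ y : Sm U, y = X 2 := ⟨_, rfl⟩
  have x0 : D 0 x = 0 := by rw [hx, DX]; rfl
  have x1 : D 1 x = 1 := by rw [hx, DX]; rfl
  have x2 : D 2 x = 0 := by rw [hx, DX]; rfl
  have x3 : D 3 x = 0 := by rw [hx, DX]; rfl
  have y0 : D 0 y = 0 := by rw [hy, DX]; rfl
  have y1 : D 1 y = 0 := by rw [hy, DX]; rfl
  have y2 : D 2 y = 1 := by rw [hy, DX]; rfl
  have y3 : D 3 y = 0 := by rw [hy, DX]; rfl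
  have inv := inverse h hE x y hx hy _ rfl
  have k0 := inv 0
  have k1 := inv 1
  have k2 := inv 2
  have k3 := inv 3
  simp only [Matrix.cons_val_zero, Matrix.cons_val_one, Matrix.cons_val] at k0 k1 k2 k3
  rw [if_neg (by decide)] at k0 k1 k2
  rw [if_pos trivial] at k3
  obtain ⟨A, hA⟩ : ∃ A : Sm U, A = Ei * D 3 T := ⟨_, rfl⟩
  obtain ⟨B, hB⟩ : ∃ A : Sm U, A = Ei * D 1 T := ⟨_, rfl⟩
  obtain ⟨C, hC⟩ : ∃ A : Sm U, A = Ei * D 2 T := ⟨_, rfl⟩
  obtain ⟨Z, hZ⟩ : ∃ A : Sm U, A = Ei * (D 0 T - (x ^ 3 - 3 * x * y ^ 2) * D 3 T) := ⟨_, rfl⟩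
  rw [← hA, ← hB, ← hC, ← hZ] at k0 k1 k2 k3
  have L := lie T P Q R A B C Z k0 k1 k2 k3
  simp only [h] at L
  have cE : ∀ f : Sm U, E * f = 0 → f = 0 := by
    intro f hf
    have : E * Ei * f = 0 := by linear_combination Ei * hf
    rwa [hE, one_mul] at this
  obtain ⟨l, hl⟩ : ∃ l : Sm U, l = -(Ei * (A * D 0 E + B * D 1 E + C * D 2 E + Z * D 3 E)) :=
    ⟨_, rfl⟩
  have hEl : E * l = -(A * D 0 E + B * D 1 E + C * D 2 E + Z * D 3 E) := by
    rw [hl]
    linear_combination -(A * D 0 E + B * D 1 E + C * D 2 E + Z * D 3 E) * hE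
  have L00 := L 0 0
  have L01 := L 0 1
  have L02 := L 0 2
  have L03 := L 0 3
  have L11 := L 1 1
  have L12 := L 1 2
  have L13 := L 1 3
  have L22 := L 2 2
  have L23 := L 2 3
  have L33 := L 3 3
  have g00 : (gm 0 0 : Sm U) = x ^ 3 - 3 * x * y ^ 2 := by rw [hx, hy]; simp [gm]
  have g01 : (gm 0 1 : Sm U) = 0 := by simp [gm]
  have g02 : (gm 0 2 : Sm U) = 0 := by simp [gm]
  have g03 : (gm 0 3 : Sm U) = 1 := by simp [gm]
  have g10 : (gm 1 0 : Sm U) = 0 := by simp [gm]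
  have g11 : (gm 1 1 : Sm U) = 1 := by simp [gm]
  have g12 : (gm 1 2 : Sm U) = 0 := by simp [gm]
  have g13 : (gm 1 3 : Sm U) = 0 := by simp [gm]
  have g20 : (gm 2 0 : Sm U) = 0 := by simp [gm]
  have g21 : (gm 2 1 : Sm U) = 0 := by simp [gm]
  have g22 : (gm 2 2 : Sm U) = 1 := by simp [gm]
  have g23 : (gm 2 3 : Sm U) = 0 := by simp [gm]
  have g30 : (gm 3 0 : Sm U) = 1 := by simp [gm]
  have g31 : (gm 3 1 : Sm U) = 0 := by simp [gm]
  have g32 : (gm 3 2 : Sm U) = 0 := by simp [gm]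
  have g33 : (gm 3 3 : Sm U) = 0 := by simp [gm]
  simp only [g00, g01, g02, g03, g10, g11, g12, g13, g20, g21, g22, g23, g30, g31, g32, g33,
    D_zero, mul_zero, zero_mul, add_zero, zero_add, D_mul, D_sub, D_ofNat, D_pow, x0, x1, x2, x3,
    y0, y1, y2, y3, mul_one, D_one] at L00 L01 L02 L03 L11 L12 L13 L22 L23 L33
  have zz : D 3 A = 0 := two_cancel (cE _ (by linear_combination L33))
  have xz : D 3 B + D 1 A = 0 := cE _ (by linear_combination L13)
  have yz : D 3 C + D 2 A = 0 := cE _ (by linear_combination L23)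
  have xy : D 2 B + D 1 C = 0 := cE _ (by linear_combination L12)
  have xx : 2 * D 1 B = l := by
    have : E * (2 * D 1 B - l) = 0 := by linear_combination L11 - hEl
    linear_combination cE _ this
  have yy : 2 * D 2 C = l := by
    have : E * (2 * D 2 C - l) = 0 := by linear_combination L22 - hEl
    linear_combination cE _ this
  have tz : D 3 Z + D 0 A = l := by
    have : E * (D 3 Z + D 0 A - l) = 0 := by
      linear_combination L03 - hEl - E * (x ^ 3 - 3 * x * y ^ 2) * zz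
    linear_combination cE _ this
  have tx : D 0 B + (x ^ 3 - 3 * x * y ^ 2) * D 1 A + D 1 Z = 0 :=
    cE _ (by linear_combination L01)
  have ty : D 0 C + (x ^ 3 - 3 * x * y ^ 2) * D 2 A + D 2 Z = 0 :=
    cE _ (by linear_combination L02)
  have tt : B * (3 * x ^ 2 - 3 * y ^ 2) - C * (6 * x * y) +
      2 * (x ^ 3 - 3 * x * y ^ 2) * D 0 A + 2 * D 0 Z = l * (x ^ 3 - 3 * x * y ^ 2) := by
    have : E * (B * (3 * x ^ 2 - 3 * y ^ 2) - C * (6 * x * y) +
      2 * (x ^ 3 - 3 * x * y ^ 2) * D 0 A + 2 * D 0 Z - l * (x ^ 3 - 3 * x * y ^ 2)) = 0 := by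
      push_cast at L00
      norm_num at L00
      linear_combination L00 - (x ^ 3 - 3 * x * y ^ 2) * hEl
    linear_combination cE _ this
  have nul : (x ^ 3 - 3 * x * y ^ 2) * (A * A) + 2 * (A * Z) + B * B + C * C = 0 := by
    have h1 : Ei * (A * D 0 T + B * D 1 T + C * D 2 T + Z * D 3 T) = 0 := by rw [k0, mul_zero]
    rw [hA, hB, hC, hZ]
    rw [hA, hB, hC, hZ] at h1
    linear_combination h1
  obtain ⟨A0, B0, C0, dZ⟩ := killing_step hx hy zz xz yz xx yy xy tz tx ty tt nul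
  have cEi : ∀ f : Sm U, Ei * f = 0 → f = 0 := by
    intro f hf
    have : E * Ei * f = 0 := by linear_combination E * hf
    rwa [hE, one_mul] at this
  have T3 : D 3 T = 0 := cEi _ (by rw [← hA, A0])
  have T1 : D 1 T = 0 := cEi _ (by rw [← hB, B0])
  have T2 : D 2 T = 0 := cEi _ (by rw [← hC, C0])
  have hk : Ei * D 0 T = Z := by rw [hZ, T3, mul_zero, sub_zero]
  exact final_step h hE hx hy T1 T2 T3 hk dZ q

end Pool.Agent.Q185.PPW
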