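import Pool.Agent.Q185.PPW.Defs
import Pool.Agent.Q185.PPW.Kill

set_option autoImplicit false
set_option linter.unusedSimpArgs false
set_option linter.unusedVariables false

/-! # The metric `(x³ - 3 x y²) dt² + 2 dt dz + dx² + dy²` -/

namespace Pool.Agent.Q185.PPW

open Pool.Agent.Q185.DR
open scoped ContDiff

/-- Half of the `x`-derivative of `x³ - 3 x y²`. -/
noncomputable def hx (p : Fin 4 → ℝ) : ℝ := 3 / 2 * p 1 ^ 2 - 3 / 2 * p 2 ^ 2

/-- Half of the `y`-derivative of `x³ - 3 x y²`. -/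
noncomputable def hy (p : Fin 4 → ℝ) : ℝ := -3 * (p 1 * p 2)

theorem pd_const (i : Fin 4) (c : ℝ) (p : Fin 4 → ℝ) : pd i (fun _ => c) p = 0 := by
  unfold pd
  rw [fderiv_const_apply]
  rfl

theorem hasF (i : Fin 4) (p : Fin 4 → ℝ) : HasFDerivAt (fun q : Fin 4 → ℝ => q i)
      (ContinuousLinearMap.proj (R := ℝ) (φ := fun _ : Fin 4 => ℝ) i) p :=
    (ContinuousLinearMap.proj (R := ℝ) (φ := fun _ : Fin 4 => ℝ) i).hasFDerivAt

theorem pd_hx (a : Fin 4) (p : Fin 4 → ℝ) :
    pd a (fun q => hx q) p = ![0, 3 * p 1, -(3 * p 2), 0] a := by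
  have h := (((hasF 1 p).pow 2).const_mul (3 / 2)).sub (((hasF 2 p).pow 2).const_mul (3 / 2))
  unfold pd
  have h3 := h.fderiv
  change fderiv ℝ (fun q => hx q) p = _ at h3
  rw [h3]
  fin_cases a <;> simp <;> ring

theorem pd_hy (a : Fin 4) (p : Fin 4 → ℝ) :
    pd a (fun q => hy q) p = ![0, -(3 * p 2), -(3 * p 1), 0] a := by
  have h := ((hasF 1 p).mul (hasF 2 p)).const_mul (-3)
  unfold pd
  have h3 := h.fderiv
  change fderiv ℝ (fun q => hy q) p = _ at h3
  rw [h3]
  fin_cases a <;> simp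

theorem pd_H (a : Fin 4) (p : Fin 4 → ℝ) :
    pd a (fun q => q 1 ^ 3 - 3 * q 1 * q 2 ^ 2) p = ![0, 2 * hx p, 2 * hy p, 0] a := by
  have h := ((hasF 1 p).pow 3).sub (((hasF 1 p).const_mul 3).mul ((hasF 2 p).pow 2))
  unfold pd
  have h3 := h.fderiv
  change fderiv ℝ (fun q => q 1 ^ 3 - 3 * q 1 * q 2 ^ 2) p = _ at h3
  rw [h3]
  fin_cases a <;> simp [hx, hy] <;> ring

theorem pd_neg' (a : Fin 4) (f : (Fin 4 → ℝ) → ℝ) (p : Fin 4 → ℝ) :
    pd a (fun q => -f q) p = -pd a f p := by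
  unfold pd
  rw [show (fun q => -f q) = -f from rfl, fderiv_neg]
  rfl

theorem gw_inv (p : Fin 4 → ℝ) :
    (gw p)⁻¹ = !![0, 0, 0, 1; 0, 1, 0, 0; 0, 0, 1, 0; 1, 0, 0,
      -(p 1 ^ 3 - 3 * p 1 * p 2 ^ 2)] := by
  apply Matrix.inv_eq_right_inv
  unfold gw
  ext i j
  fin_cases i <;> fin_cases j <;> simp [Matrix.mul_apply, Fin.sum_univ_four]

theorem pd_gw (a i j : Fin 4) (p : Fin 4 → ℝ) :
    pd a (fun q => gw q i j) p =
      if i = 0 ∧ j = 0 then ![0, 2 * hx p, 2 * hy p, 0] a else 0 := by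
  by_cases h : i = 0 ∧ j = 0
  · obtain ⟨rfl, rfl⟩ := h
    rw [if_pos ⟨rfl, rfl⟩, ← pd_H]
    rfl
  · rw [if_neg h]
    have : ∃ c, (fun q => gw q i j) = fun _ => c := by
      fin_cases i <;> fin_cases j <;> simp [gw] at h ⊢ <;> exact ⟨_, rfl⟩
    obtain ⟨c, hc⟩ := this
    rw [hc, pd_const]

/-- Explicit Christoffel symbols. -/
noncomputable def cex (k i j : Fin 4) (p : Fin 4 → ℝ) : ℝ :=
  if k = 1 ∧ i = 0 ∧ j = 0 then -hx p else
  if k = 2 ∧ i = 0 ∧ j = 0 then -hy p else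
  if k = 3 ∧ i = 0 ∧ j = 1 then hx p else
  if k = 3 ∧ i = 1 ∧ j = 0 then hx p else
  if k = 3 ∧ i = 0 ∧ j = 2 then hy p else
  if k = 3 ∧ i = 2 ∧ j = 0 then hy p else 0

theorem chr_gw (k i j : Fin 4) : christoffel gw k i j = cex k i j := by
  funext p
  unfold christoffel
  simp only [pd_gw, gw_inv, Fin.sum_univ_four, cex]
  fin_cases k <;> fin_cases i <;> fin_cases j <;> simp

theorem pd_cex (a k i j : Fin 4) (p : Fin 4 → ℝ) : pd a (cex k i j) p =
    if k = 1 ∧ i = 0 ∧ j = 0 then -(![0, 3 * p 1, -(3 * p 2), 0] a) else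
    if k = 2 ∧ i = 0 ∧ j = 0 then -(![0, -(3 * p 2), -(3 * p 1), 0] a) else
    if k = 3 ∧ i = 0 ∧ j = 1 then ![0, 3 * p 1, -(3 * p 2), 0] a else
    if k = 3 ∧ i = 1 ∧ j = 0 then ![0, 3 * p 1, -(3 * p 2), 0] a else
    if k = 3 ∧ i = 0 ∧ j = 2 then ![0, -(3 * p 2), -(3 * p 1), 0] a else
    if k = 3 ∧ i = 2 ∧ j = 0 then ![0, -(3 * p 2), -(3 * p 1), 0] a else 0 := by
  have h : cex k i j = fun p =>
    if k = 1 ∧ i = 0 ∧ j = 0 then -hx p else
    if k = 2 ∧ i = 0 ∧ j = 0 then -hy p else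
    if k = 3 ∧ i = 0 ∧ j = 1 then hx p else
    if k = 3 ∧ i = 1 ∧ j = 0 then hx p else
    if k = 3 ∧ i = 0 ∧ j = 2 then hy p else
    if k = 3 ∧ i = 2 ∧ j = 0 then hy p else 0 := rfl
  rw [h]
  split_ifs
  · rw [pd_neg', pd_hx]
  · rw [pd_neg', pd_hy]
  · exact pd_hx a p
  · exact pd_hx a p
  · exact pd_hy a p
  · exact pd_hy a p
  · exact pd_const a 0 p

theorem ricci_gw (k j : Fin 4) : ricci gw k j = fun _ => 0 := by
  funext p
  unfold ricci riemannUp
  simp only [chr_gw, pd_cex, Fin.sum_univ_four, cex]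
  fin_cases k <;> fin_cases j <;> simp

theorem scal_gw (p : Fin 4 → ℝ) : scal gw p = 0 := by
  unfold scal
  simp only [ricci_gw, mul_zero, Finset.sum_const_zero]

theorem schouten_gw (i j : Fin 4) (p : Fin 4 → ℝ) : schouten gw i j p = 0 := by
  unfold schouten
  rw [scal_gw, ricci_gw]
  ring

theorem riem_gw (p : Fin 4 → ℝ) : riemann gw 0 1 0 1 p = -(3 * p 1) := by
  unfold riemann riemannUp
  simp only [chr_gw, pd_cex, Fin.sum_univ_four, cex, gw]
  simp

theorem weyl_gw (p : Fin 4 → ℝ) : weyl gw 0 1 0 1 p = -(3 * p 1) := by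
  unfold weyl
  rw [riem_gw]
  simp only [schouten_gw]
  ring

theorem dense_gw : Dense {p | WeylNonzeroAt gw p} := by
  have h : (fun p : Fin 4 → ℝ => p 1) ⁻¹' {0}ᶜ ⊆ {p | WeylNonzeroAt gw p} := by
    intro p hp
    refine ⟨0, 1, 0, 1, ?_⟩
    rw [weyl_gw]
    simpa using hp
  exact ((dense_compl_singleton (0 : ℝ)).preimage (isOpenMap_eval 1)).mono h

theorem lor_gw : IsLorentzian gw := by
  refine ⟨?_, fun p => ⟨?_, ?_⟩⟩
  · intro i j
    have h : ContDiff ℝ ∞ fun p : Fin 4 → ℝ => p 1 ^ 3 - 3 * p 1 * p 2 ^ 2 := by fun_prop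
    fin_cases i <;> fin_cases j <;> simp [gw] <;> first | exact contDiff_const | exact h
  · unfold gw
    ext i j
    fin_cases i <;> fin_cases j <;> simp
  · obtain ⟨H, hH⟩ : ∃ H : ℝ, H = p 1 ^ 3 - 3 * p 1 * p 2 ^ 2 := ⟨_, rfl⟩
    refine ⟨!![1, 1, 0, 0; 0, 0, 1, 0; 0, 0, 0, 1; -(H + 1) / 2, (1 - H) / 2, 0, 0], ?_, ?_⟩
    · rw [isUnit_iff_ne_zero]
      simp [Matrix.det_succ_row_zero, Fin.sum_univ_succ, Fin.succAbove]
      intro h
      linarith
    · unfold gw
      rw [← hH]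
      ext i j
      fin_cases i <;> fin_cases j <;>
        simp [Matrix.mul_apply, Fin.sum_univ_four, Matrix.diagonal] <;> ring

/-! ### Almost Einstein scales -/

/-- Solutions of the almost Einstein equation of the pp-wave, algebraic form. -/
theorem scale_step {U : TopologicalSpace.Opens (Fin 4 → ℝ)} {s x y : Sm U}
    (hx : x = X 1) (hy : y = X 2)
    (xz : D 1 (D 3 s) = 0) (yz : D 2 (D 3 s) = 0)
    (tz : D 0 (D 3 s) = D 1 (D 1 s)) (yy : D 2 (D 2 s) = D 1 (D 1 s)) (xy : D 1 (D 2 s) = 0)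
    (tx : 2 * D 0 (D 1 s) = (3 * x ^ 2 - 3 * y ^ 2) * D 3 s)
    (ty : 2 * D 0 (D 2 s) = -(6 * x * y) * D 3 s)
    (tt : 2 * D 0 (D 0 s) + (3 * x ^ 2 - 3 * y ^ 2) * D 1 s - 6 * x * y * D 2 s =
      2 * (x ^ 3 - 3 * x * y ^ 2) * D 1 (D 1 s)) :
    D 1 s = 0 ∧ D 2 s = 0 ∧ D 3 s = 0 ∧ D 0 (D 0 s) = 0 := by
  have x1 : D 1 x = 1 := by rw [hx, DX]; rfl
  have x2 : D 2 x = 0 := by rw [hx, DX]; rfl
  have y1 : D 1 y = 0 := by rw [hy, DX]; rfl
  have y2 : D 2 y = 1 := by rw [hy, DX]; rfl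
  have m0 : 2 * D 0 (D 1 (D 1 s)) = 6 * x * D 3 s := by
    have h1 := congrArg (D 1) tx
    simp only [D_add, D_sub, D_mul, D_pow, D_ofNat, c10, x1, y1, xz, D_zero] at h1
    push_cast at h1
    norm_num at h1
    linear_combination h1
  have m0' : 2 * D 0 (D 1 (D 1 s)) = -(6 * x * D 3 s) := by
    have h1 := congrArg (D 2) ty
    simp only [D_add, D_sub, D_mul, D_pow, D_neg, D_ofNat, c20, yy, x2, y2, yz, D_zero] at h1
    linear_combination h1
  have z0 : D 3 s = 0 := by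
    have h1 : 6 * (x * D 3 s) = 0 := by
      apply two_cancel
      linear_combination m0' - m0
    have h2 := congrArg (D 1) (six_cancel h1)
    rw [D_mul, x1, xz, mul_zero, add_zero, one_mul, D_zero] at h2
    exact h2
  have m : D 1 (D 1 s) = 0 := by rw [← tz, z0, D_zero]
  have s01 : D 0 (D 1 s) = 0 := two_cancel (by rw [tx, z0, mul_zero])
  have s001 : D 1 (D 0 (D 0 s)) = 0 := by rw [c10, c10, s01, D_zero]
  have t1 : x * D 1 s - y * D 2 s = 0 := by
    have h1 := congrArg (D 1) tt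
    simp only [D_add, D_sub, D_mul, D_pow, D_ofNat, s001, m, xy, x1, y1, D_zero] at h1
    push_cast at h1
    norm_num at h1
    apply six_cancel
    linear_combination h1
  have a1 : D 1 s = 0 := by
    have h1 := congrArg (D 1) t1
    simp only [D_add, D_sub, D_mul, m, xy, x1, y1, D_zero] at h1
    linear_combination h1
  have a2 : D 2 s = 0 := by
    have h1 := congrArg (D 2) t1
    simp only [D_add, D_sub, D_mul, c21, m, yy, xy, x2, y2, D_zero] at h1
    linear_combination -h1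
  refine ⟨a1, a2, z0, two_cancel ?_⟩
  rw [m, a1, a2] at tt
  linear_combination tt

theorem D_res_pd {F : (Fin 4 → ℝ) → ℝ} (hF : ContDiff ℝ ∞ F) (i : Fin 4) :
    D i (res (U := ⊤) F hF.contDiffOn) = res (pd i F) (contDiff_pd hF i).contDiffOn := by
  apply Sm_ext
  intro q
  rw [D_res]
  rfl

theorem scale_facts {σ : (Fin 4 → ℝ) → ℝ} (h : IsAlmostEinsteinScale gw σ) (p : Fin 4 → ℝ) :
    pd 1 σ p = 0 ∧ pd 2 σ p = 0 ∧ pd 3 σ p = 0 ∧ pd 0 (pd 0 σ) p = 0 := by
  obtain ⟨hσ, hE⟩ := h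
  let s : Sm (⊤ : TopologicalSpace.Opens (Fin 4 → ℝ)) := res σ hσ.contDiffOn
  have hs1 : ∀ i, D i s = res (pd i σ) (contDiff_pd hσ i).contDiffOn := D_res_pd hσ
  have hs2 : ∀ i j, D i (D j s) =
      res (pd i (pd j σ)) (contDiff_pd (contDiff_pd hσ j) i).contDiffOn := by
    intro i j
    rw [hs1 j]
    exact D_res_pd (contDiff_pd hσ j) i
  have hx : ∀ q, aEop gw σ 1 1 q = pd 1 (pd 1 σ) q := by
    intro q
    unfold aEop
    simp only [schouten_gw, chr_gw, cex, Fin.sum_univ_four]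
    simp
  have htr : ∀ q, 1 / 4 * aEtrace gw σ q = pd 1 (pd 1 σ) q := by
    intro q
    have h1 := hE q 1 1
    have h2 : gw q 1 1 = 1 := by simp [gw]
    rw [h2, hx] at h1
    linear_combination -h1
  simp only [htr] at hE
  have key : (D 1 s = 0 ∧ D 2 s = 0 ∧ D 3 s = 0 ∧ D 0 (D 0 s) = 0) := by
    apply scale_step (x := X 1) (y := X 2) rfl rfl
    · rw [hs2]
      apply Sm_ext
      intro q
      have h1 := hE q 1 3
      unfold aEop at h1
      simp only [schouten_gw, chr_gw, cex, Fin.sum_univ_four] at h1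
      simp [gw] at h1
      exact h1
    · rw [hs2]
      apply Sm_ext
      intro q
      have h1 := hE q 2 3
      unfold aEop at h1
      simp only [schouten_gw, chr_gw, cex, Fin.sum_univ_four] at h1
      simp [gw] at h1
      exact h1
    · rw [hs2, hs2]
      apply Sm_ext
      intro q
      have h1 := hE q 0 3
      unfold aEop at h1
      simp only [schouten_gw, chr_gw, cex, Fin.sum_univ_four] at h1
      simp [gw] at h1
      change pd 0 (pd 3 σ) q = pd 1 (pd 1 σ) q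
      linear_combination h1
    · rw [hs2, hs2]
      apply Sm_ext
      intro q
      have h1 := hE q 2 2
      unfold aEop at h1
      simp only [schouten_gw, chr_gw, cex, Fin.sum_univ_four] at h1
      simp [gw] at h1
      change pd 2 (pd 2 σ) q = pd 1 (pd 1 σ) q
      linear_combination h1
    · rw [hs2]
      apply Sm_ext
      intro q
      have h1 := hE q 1 2
      unfold aEop at h1
      simp only [schouten_gw, chr_gw, cex, Fin.sum_univ_four] at h1
      simp [gw] at h1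
      exact h1
    · rw [hs2, hs1]
      apply Sm_ext
      intro q
      have h1 := hE q 0 1
      unfold aEop at h1
      simp only [schouten_gw, chr_gw, cex, Fin.sum_univ_four] at h1
      simp [gw, PPW.hx] at h1
      change 2 * pd 0 (pd 1 σ) q = (3 * q.1 1 ^ 2 - 3 * q.1 2 ^ 2) * pd 3 σ q
      linear_combination 2 * h1
    · rw [hs2, hs1]
      apply Sm_ext
      intro q
      have h1 := hE q 0 2
      unfold aEop at h1
      simp only [schouten_gw, chr_gw, cex, Fin.sum_univ_four] at h1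
      simp [gw, PPW.hy] at h1
      change 2 * pd 0 (pd 2 σ) q = -(6 * q.1 1 * q.1 2) * pd 3 σ q
      linear_combination 2 * h1
    · rw [hs2 0 0, hs2 1 1, hs1, hs1]
      apply Sm_ext
      intro q
      have h1 := hE q 0 0
      unfold aEop at h1
      simp only [schouten_gw, chr_gw, cex, Fin.sum_univ_four] at h1
      simp [gw, PPW.hx, PPW.hy] at h1
      change 2 * pd 0 (pd 0 σ) q + (3 * q.1 1 ^ 2 - 3 * q.1 2 ^ 2) * pd 1 σ q -
        6 * q.1 1 * q.1 2 * pd 2 σ q =
          2 * (q.1 1 ^ 3 - 3 * q.1 1 * q.1 2 ^ 2) * pd 1 (pd 1 σ) q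
      linear_combination 2 * h1
  rw [hs1, hs1, hs1, hs2] at key
  obtain ⟨k1, k2, k3, k4⟩ := key
  exact ⟨congrFun (congrArg Subtype.val k1) ⟨p, trivial⟩,
    congrFun (congrArg Subtype.val k2) ⟨p, trivial⟩,
    congrFun (congrArg Subtype.val k3) ⟨p, trivial⟩,
    congrFun (congrArg Subtype.val k4) ⟨p, trivial⟩⟩

/-- A smooth function on `ℝ⁴` with vanishing partial derivatives is constant. -/
theorem const_of_pd {f : (Fin 4 → ℝ) → ℝ} (hf : ContDiff ℝ ∞ f) (h : ∀ i p, pd i f p = 0)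
    (p : Fin 4 → ℝ) : f p = f 0 := by
  apply is_const_of_fderiv_eq_zero (𝕜 := ℝ) (hf.differentiable (by simp))
  intro x
  apply ContinuousLinearMap.ext
  intro v
  have h1 : v = ∑ i, v i • (Pi.single i 1 : Fin 4 → ℝ) := by
    ext j
    simp [Finset.sum_apply, Pi.single_apply]
  rw [h1, map_sum]
  simp only [map_smul]
  exact Finset.sum_eq_zero fun i _ => by
    have := h i x
    unfold pd at this
    rw [this, smul_zero]

theorem pd_coord (i : Fin 4) (p : Fin 4 → ℝ) :
    pd i (fun q => q 0) p = if i = 0 then 1 else 0 := by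
  unfold pd
  rw [(hasF 0 p).fderiv]
  simp only [ContinuousLinearMap.proj_apply, Pi.single_apply]
  simp only [eq_comm]

/-- The almost Einstein scales of the pp-wave are the functions `a + b t`. -/
theorem scale_iff (σ : (Fin 4 → ℝ) → ℝ) :
    IsAlmostEinsteinScale gw σ ↔ ∃ c : Fin 2 → ℝ, (fun p => c 0 + c 1 * p 0) = σ := by
  constructor
  · intro h
    have hσ := h.1
    have hf := scale_facts h
    have h0 : ∀ p, pd 0 σ p = pd 0 σ 0 := by
      apply const_of_pd (contDiff_pd hσ 0)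
      intro i p
      have hcomm : ∀ q, pd i (pd 0 σ) q = pd 0 (pd i σ) q := by
        intro q
        have h1 := D_comm i 0 (res (U := ⊤) σ hσ.contDiffOn)
        rw [D_res_pd hσ, D_res_pd hσ, D_res_pd (contDiff_pd hσ 0),
          D_res_pd (contDiff_pd hσ i)] at h1
        exact congrFun (congrArg Subtype.val h1) ⟨q, trivial⟩
      have hz : ∀ j, pd j σ = (fun _ => 0) → pd 0 (pd j σ) p = 0 := by
        intro j hj
        rw [hj, pd_const]
      rw [hcomm]
      fin_cases i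
      · exact (hf p).2.2.2
      · exact hz 1 (funext fun q => (hf q).1)
      · exact hz 2 (funext fun q => (hf q).2.1)
      · exact hz 3 (funext fun q => (hf q).2.2.1)
    refine ⟨![σ 0, pd 0 σ 0], ?_⟩
    have hd : ContDiff ℝ ∞ fun q : Fin 4 → ℝ => q 0 := by fun_prop
    have h2 : ContDiff ℝ ∞ fun q : Fin 4 → ℝ => σ q + (-(pd 0 σ 0)) * q 0 :=
      hσ.add (contDiff_const.mul hd)
    funext p
    have h3 := const_of_pd h2 (by
      intro i q
      rw [pd_add (diff_of hσ q) (diff_of (contDiff_const.mul hd) q),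
        pd_const_mul (diff_of hd q), pd_coord]
      fin_cases i
      · change pd 0 σ q + -pd 0 σ 0 * (if (0 : Fin 4) = 0 then 1 else 0) = 0
        rw [if_pos rfl, h0 q]
        ring
      · have := (hf q).1
        change pd 1 σ q + _ = 0
        rw [this]
        simp
      · have := (hf q).2.1
        change pd 2 σ q + _ = 0
        rw [this]
        simp
      · have := (hf q).2.2.1
        change pd 3 σ q + _ = 0
        rw [this]
        simp) p
    simp at h3 ⊢
    linear_combination -h3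
  · rintro ⟨c, rfl⟩
    have hd : ContDiff ℝ ∞ fun q : Fin 4 → ℝ => q 0 := by fun_prop
    have h2 : ContDiff ℝ ∞ fun q : Fin 4 → ℝ => c 0 + c 1 * q 0 :=
      contDiff_const.add (contDiff_const.mul hd)
    have h1 : ∀ j, pd j (fun q : Fin 4 → ℝ => c 0 + c 1 * q 0) =
        fun _ => if j = 0 then c 1 else 0 := by
      intro j
      funext q
      rw [pd_add (diff_of contDiff_const q) (diff_of (contDiff_const.mul hd) q), pd_const,
        pd_const_mul (diff_of hd q), pd_coord]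
      split_ifs <;> simp
    have h3 : ∀ i j p, aEop gw (fun q : Fin 4 → ℝ => c 0 + c 1 * q 0) i j p = 0 := by
      intro i j p
      unfold aEop
      simp only [schouten_gw, chr_gw, cex, Fin.sum_univ_four, h1, pd_const]
      simp
    refine ⟨h2, fun p i j => ?_⟩
    have h4 : aEtrace gw (fun q : Fin 4 → ℝ => c 0 + c 1 * q 0) p = 0 := by
      unfold aEtrace
      simp only [h3, mul_zero, Finset.sum_const_zero]
    rw [h4, h3]
    ring

/-- The linear map `(a, b) ↦ a + b t`. -/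
noncomputable def lin : (Fin 2 → ℝ) →ₗ[ℝ] ((Fin 4 → ℝ) → ℝ) where
  toFun c := fun p => c 0 + c 1 * p 0
  map_add' c d := by
    funext p
    simp only [Pi.add_apply]
    ring
  map_smul' r c := by
    funext p
    simp only [Pi.smul_apply, smul_eq_mul, RingHom.id_apply]
    ring

theorem finrank_aE : Module.finrank ℝ (aE gw) = 2 := by
  have h1 : aE gw = LinearMap.range lin := by
    ext σ
    rw [LinearMap.mem_range]
    exact scale_iff σ
  have hinj : Function.Injective lin := by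
    intro c d h
    have h0 := congrFun h 0
    have h2 := congrFun h (fun _ => 1)
    change c 0 + c 1 * (0 : ℝ) = d 0 + d 1 * 0 at h0
    change c 0 + c 1 * (1 : ℝ) = d 0 + d 1 * 1 at h2
    funext i
    fin_cases i
    · change c 0 = d 0
      linarith
    · change c 1 = d 1
      linarith
  rw [h1, LinearMap.finrank_range_of_inj hinj]
  simp

/-! ### No local conformal maps to `g_pp` -/

theorem not_conf (p : Fin 4 → ℝ) : ¬ LocallyConformalAt gw gpp p := by
  rintro ⟨F, hpF, hF, -, φ, hφ, hpos, hrel⟩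
  let U : TopologicalSpace.Opens (Fin 4 → ℝ) := ⟨_, F.open_source⟩
  have hcomp : ∀ i, ContDiffOn ℝ ∞ (fun q => F q i) U := fun i =>
    (contDiff_apply ℝ ℝ i).comp_contDiffOn hF
  let f : Fin 4 → Sm U := fun i => res (fun q => F q i) (hcomp i)
  let E : Sm U := res (fun q => Real.exp (√2 * F q 0) * φ q ^ 2)
    ((Real.contDiff_exp.comp_contDiffOn (contDiffOn_const.mul (hcomp 0))).mul (hφ.pow 2))
  let Ei : Sm U := res (fun q => Real.exp (-(√2 * F q 0)) * (φ q ^ 2)⁻¹)
    ((Real.contDiff_exp.comp_contDiffOn (contDiffOn_const.mul (hcomp 0)).neg).mul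
      ((hφ.pow 2).inv fun q hq => pow_ne_zero _ (hpos q hq).ne'))
  have hE : E * Ei = 1 := by
    apply Sm_ext
    intro q
    have h1 : φ q ^ 2 ≠ 0 := pow_ne_zero _ (hpos q q.2).ne'
    change Real.exp (√2 * F q 0) * φ q ^ 2 * (Real.exp (-(√2 * F q 0)) * (φ q ^ 2)⁻¹) = 1
    rw [mul_mul_mul_comm, ← Real.exp_add, add_neg_cancel, Real.exp_zero, mul_inv_cancel₀ h1,
      one_mul]
  have hdiff : ∀ q : U, DifferentiableAt ℝ F q := fun q =>
    (hF.contDiffAt (F.open_source.mem_nhds q.2)).differentiableAt (by simp)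
  have hD : ∀ (i k : Fin 4) (q : U), (D i (f k)).1 q = fderiv ℝ F q (Pi.single i 1) k := by
    intro i k q
    rw [D_res]
    have h1 := (ContinuousLinearMap.proj (R := ℝ) (φ := fun _ : Fin 4 => ℝ) k).hasFDerivAt.comp
      (q : Fin 4 → ℝ) (hdiff q).hasFDerivAt
    have h2 : fderiv ℝ (fun q => F q k) q =
      (ContinuousLinearMap.proj (R := ℝ) (φ := fun _ : Fin 4 => ℝ) k).comp (fderiv ℝ F q) :=
      h1.fderiv
    rw [h2]
    rfl
  have key : ∀ i j, GG (f 0) (f 1) (f 2) (f 3) i j = E * gm i j := by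
    intro i j
    apply Sm_ext
    intro q
    have h1 := hrel q q.2 (Pi.single i 1) (Pi.single j 1)
    have h2 : (Pi.single i 1 : Fin 4 → ℝ) ⬝ᵥ (gw q).mulVec (Pi.single j 1) = gw q i j := by
      simp
    rw [h2] at h1
    have h3 : (gm i j : Sm U).1 q = gw q i j := by
      fin_cases i <;> fin_cases j <;> rfl
    change F q 1 ^ 2 * ((D i (f 0)).1 q * (D j (f 0)).1 q) + (D i (f 0)).1 q * (D j (f 3)).1 q +
      (D j (f 0)).1 q * (D i (f 3)).1 q + (D i (f 1)).1 q * (D j (f 1)).1 q +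
      (D i (f 2)).1 q * (D j (f 2)).1 q =
        Real.exp (√2 * F q 0) * φ q ^ 2 * (gm i j : Sm U).1 q
    rw [h3, mul_assoc, ← h1]
    simp only [hD]
    simp only [gpp, dotProduct, Matrix.mulVec, Matrix.smul_apply, smul_eq_mul,
      Fin.sum_univ_four]
    have h5 : Real.exp (√2 * F q 0) * Real.exp (-(√2 * F q 0)) = 1 := by
      rw [← Real.exp_add, add_neg_cancel, Real.exp_zero]
    simp
    generalize Real.exp (√2 * F q 0) = a at h5 ⊢
    generalize Real.exp (-(√2 * F q 0)) = b at h5 ⊢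
    generalize fderiv ℝ F q (Pi.single i 1) = v
    generalize fderiv ℝ F q (Pi.single j 1) = w
    linear_combination (-(F q 1 ^ 2 * (v 0 * w 0) + v 0 * w 3 + w 0 * v 3 + v 1 * w 1 +
      v 2 * w 2)) * h5
  exact main key hE ⟨p, hpF⟩

end Pool.Agent.Q185.PPW
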